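import Pool.Agent.Helper17.CR.Stmts

set_option autoImplicit false

/-! # The module `F / Phi(F)` -/

namespace Pool.Agent.Helper33.CR

open Pool.Agent.Helper17.CR

universe u

/-- an action by additive maps on a module over `ZMod p` is linear -/
lemma mod_rho (G : Type u) [Group G] (p : ℕ) (V : Type u) [AddCommGroup V] [Module (ZMod p) V]
    (φ : G → (V →+ V)) (h1 : ∀ a, φ 1 a = a) (hm : ∀ g h a, φ (g * h) a = φ g (φ h a)) :
    ∃ ρ : G →* (V →ₗ[ZMod p] V), ∀ g a, ρ g a = φ g a :=
  ⟨{ toFun := fun g => (φ g).toZModLinearMap p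
     map_one' := by
        apply LinearMap.ext
        intro v
        exact h1 v
     map_mul' := by
        intro g h
        apply LinearMap.ext
        intro v
        exact hm g h v }, fun g a => rfl⟩

/-- an elementary abelian group with an action by automorphisms as a module -/
lemma mod_add (G : Type u) [Group G] (p : ℕ) (V : Type u) [AddCommGroup V]
    (hp : ∀ a : V, p • a = 0) (φ : G → (V →+ V)) (h1 : ∀ a, φ 1 a = a)
    (hm : ∀ g h a, φ (g * h) a = φ g (φ h a)) :
    ∃ (_ : Module (ZMod p) V) (ρ : G →* (V →ₗ[ZMod p] V)), ∀ g a, ρ g a = φ g a := by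
  obtain ⟨iM⟩ : Nonempty (Module (ZMod p) V) := ⟨AddCommGroup.zmodModule hp⟩
  obtain ⟨ρ, hρ⟩ := mod_rho G p V φ h1 hm
  exact ⟨iM, ρ, hρ⟩

/-- an elementary abelian group with an action by automorphisms as a module -/
lemma mod_abs (G : Type u) [Group G] (p : ℕ) (Q : Type u) [CommGroup Q] [Finite Q]
    (hp : ∀ a : Q, a ^ p = 1) (φ : G → (Q →* Q)) (h1 : ∀ a, φ 1 a = a)
    (hm : ∀ g h a, φ (g * h) a = φ g (φ h a)) :
    ∃ (V : Type u) (_ : AddCommGroup V) (_ : Module (ZMod p) V) (_ : Finite V)
      (ρ : G →* (V →ₗ[ZMod p] V)) (e : Q → V), Function.Bijective e ∧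
      ∀ g a, ρ g (e a) = e (φ g a) := by
  obtain ⟨i, ρ, hρ⟩ := mod_add G p (Additive Q)
    (fun x => congrArg Additive.ofMul (hp x.toMul)) (fun g => MonoidHom.toAdditive (φ g))
    (fun a => congrArg Additive.ofMul (h1 a.toMul))
    (fun g h a => congrArg Additive.ofMul (hm g h a.toMul))
  refine ⟨Additive Q, inferInstance, i, inferInstance, ρ, Additive.ofMul,
    Additive.ofMul.bijective, fun g a => ?_⟩
  rw [hρ]
  rfl

/-- the quotient of `F` by `Ph` as a module over `ZMod p` with the action by conjugation -/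
lemma mod_mk (G : Type u) [Group G] [Finite G] (p : ℕ) (F Ph : Subgroup G)
    (hF : F.Normal) (hPh : Ph.Normal) (hp : ∀ x ∈ F, x ^ p ∈ Ph)
    (hcomm : ∀ x ∈ F, ∀ y ∈ F, x * y * x⁻¹ * y⁻¹ ∈ Ph) :
    ∃ (V : Type u) (_ : AddCommGroup V) (_ : Module (ZMod p) V) (_ : Finite V)
      (ρ : G →* (V →ₗ[ZMod p] V)) (π : F → V), Function.Surjective π ∧
      (∀ x y : F, π x = π y ↔ (x : G)⁻¹ * y ∈ Ph) ∧
      ∀ (g : G) (x : F), ρ g (π x) = π ⟨g * x * g⁻¹, hF.conj_mem x x.2 g⟩ := by
  have := hF
  have := hPh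
  have hN : (Ph.subgroupOf F).Normal := inferInstance
  let iC : CommGroup (F ⧸ Ph.subgroupOf F) :=
    { (QuotientGroup.Quotient.group (Ph.subgroupOf F)) with
      mul_comm := by
        intro a b
        induction a using QuotientGroup.induction_on with | _ x
        induction b using QuotientGroup.induction_on with | _ y
        rw [← QuotientGroup.mk_mul, ← QuotientGroup.mk_mul, QuotientGroup.eq,
          Subgroup.mem_subgroupOf]
        have h1 := hcomm (y⁻¹ : G) (F.inv_mem y.2) (x⁻¹ : G) (F.inv_mem x.2)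
        have h2 : (((x * y)⁻¹ * (y * x) : F) : G) =
            (y⁻¹ : G) * (x⁻¹ : G) * ((y : G)⁻¹)⁻¹ * ((x : G)⁻¹)⁻¹ := by
          push_cast
          group
        rw [h2]
        exact h1 }
  let φ : G → ((F ⧸ Ph.subgroupOf F) →* (F ⧸ Ph.subgroupOf F)) := fun g =>
    QuotientGroup.map (Ph.subgroupOf F) (Ph.subgroupOf F) (MulAut.conjNormal g).toMonoidHom (by
      intro x hx
      rw [Subgroup.mem_comap, Subgroup.mem_subgroupOf]
      rw [Subgroup.mem_subgroupOf] at hx
      have h3 : (((MulAut.conjNormal g).toMonoidHom x : F) : G) = g * x * g⁻¹ :=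
        MulAut.conjNormal_apply g x
      rw [h3]
      exact hPh.conj_mem x hx g)
  have hφ : ∀ (g : G) (x : F), φ g (QuotientGroup.mk x) =
      QuotientGroup.mk (⟨g * x * g⁻¹, hF.conj_mem x x.2 g⟩ : F) := by
    intro g x
    exact congrArg QuotientGroup.mk (Subtype.ext (MulAut.conjNormal_apply g x))
  obtain ⟨V, i1, i2, i3, ρ, e, he, hρ⟩ := mod_abs G p (F ⧸ Ph.subgroupOf F) (by
      intro a
      induction a using QuotientGroup.induction_on with | _ y
      have : ((y ^ p : F) : F ⧸ Ph.subgroupOf F) = 1 := by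
        rw [QuotientGroup.eq_one_iff, Subgroup.mem_subgroupOf]
        exact hp y y.2
      exact this) φ (by
      intro a
      induction a using QuotientGroup.induction_on with | _ y
      rw [hφ]
      congr 1
      apply Subtype.ext
      simp) (by
      intro g h a
      induction a using QuotientGroup.induction_on with | _ y
      rw [hφ, hφ, hφ]
      congr 1
      apply Subtype.ext
      show g * h * y * (g * h)⁻¹ = g * (h * y * h⁻¹) * g⁻¹
      group)
  refine ⟨V, i1, i2, i3, ρ, fun x => e (QuotientGroup.mk x), ?_, ?_, ?_⟩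
  · intro v
    obtain ⟨a, rfl⟩ := he.2 v
    induction a using QuotientGroup.induction_on with | _ y
    exact ⟨y, rfl⟩
  · intro x y
    show e (QuotientGroup.mk x : F ⧸ Ph.subgroupOf F) = e (QuotientGroup.mk y) ↔ _
    rw [he.1.eq_iff, QuotientGroup.eq, Subgroup.mem_subgroupOf]
    rfl
  · intro g x
    show ρ g (e (QuotientGroup.mk x)) = _
    rw [hρ, hφ]

theorem st_MOD (h1 : ST_FITC.{u}) (h2 : ST_FRAT.{u}) (h3 : ST_FIXQ.{u}) : ST_MOD.{u} := by
  intro G _ _ _ p hpf F hF hFp hFmax hFq
  have hp : p.Prime := hpf.out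
  have hcent := h1 G p F hp hF hFp hFmax hFq
  obtain ⟨Ph, hPh, hle, hPp, hPc, hPg⟩ := h2 G p F hp hF hFp
  have hPhp : IsPGroup p Ph := hFp.to_le hle
  obtain ⟨V, _, _, _, ρ, π, hsurj, hπ, hρ⟩ := mod_mk G p F Ph hF hPh hPp hPc
  -- fixed vectors come from fixed elements
  have hfix : ∀ g : G, (orderOf g).Prime → orderOf g ≠ p → ∀ x : F, ρ g (π x) = π x →
      ∃ n ∈ Ph, g * ((x : G) * n) * g⁻¹ = (x : G) * n := by
    intro g hg hgp x hx
    rw [hρ] at hx
    have h4 := (hπ _ _).1 hx.symm
    exact h3 G p Ph hp hPh hPhp g x hg hgp h4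
  refine ⟨V, inferInstance, inferInstance, inferInstance, ρ, ?_, ?_, ?_⟩
  · intro g
    constructor
    · -- the kernel is a normal `p`-subgroup
      intro hg
      let K : Subgroup G := ρ.ker
      have hK : K.Normal := inferInstance
      have hKp : IsPGroup p K := by
        rw [IsPGroup.iff_card]
        refine ⟨_, Nat.eq_prime_pow_of_unique_prime_dvd (Nat.card_pos.ne') ?_⟩
        intro l hl hd
        by_contra hne
        have : Fact l.Prime := ⟨hl⟩
        obtain ⟨x, hx⟩ := exists_prime_orderOf_dvd_card' l hd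
        have hxG : orderOf (x : G) = l := by rw [Subgroup.orderOf_coe]; exact hx
        have hxK : ρ (x : G) = 1 := x.2
        have hxp : (orderOf (x : G)).Prime := by rw [hxG]; exact hl
        have hxne : orderOf (x : G) ≠ p := by rw [hxG]; exact hne
        have hU : F ≤ (F ⊓ Subgroup.centralizer {(x : G)}) ⊔ Ph := by
          intro y hy
          obtain ⟨n, hn, hn2⟩ := hfix (x : G) hxp hxne ⟨y, hy⟩ (by rw [hxK]; rfl)
          have h5 : y * n ∈ F ⊓ Subgroup.centralizer {(x : G)} := by
            refine ⟨F.mul_mem hy (hle hn), ?_⟩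
            show y * n ∈ Subgroup.centralizer {(x : G)}
            rw [Subgroup.mem_centralizer_singleton_iff]
            have h6 : (x : G) * (y * n) * (x : G)⁻¹ = y * n := hn2
            have h7 := mul_inv_eq_iff_eq_mul.1 h6
            exact h7.symm
          have h6 : y = (y * n) * n⁻¹ := by group
          rw [h6]
          exact Subgroup.mul_mem_sup h5 (Ph.inv_mem hn)
        have hUF := hPg _ inf_le_left hU
        have hFc : F ≤ Subgroup.centralizer {(x : G)} := by
          rw [← hUF]
          exact inf_le_right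
        have hxF : (x : G) ∈ F := by
          apply hcent
          rw [Subgroup.mem_centralizer_iff]
          intro h hh
          have h8 := hFc hh
          rw [Subgroup.mem_centralizer_singleton_iff] at h8
          exact h8
        obtain ⟨k, hk⟩ := hFp ⟨x, hxF⟩
        have hk' : (x : G) ^ p ^ k = 1 := by
          have := congrArg (Subtype.val) hk
          simpa using this
        have h9 : l ∣ p ^ k := by
          rw [← hxG]
          exact orderOf_dvd_of_pow_eq_one hk'
        exact hne ((Nat.prime_dvd_prime_iff_eq hl hp).1 (hl.dvd_of_dvd_pow h9))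
      exact hFmax K hK hKp (by
        show ρ g = 1
        exact hg)
    · intro hg
      apply LinearMap.ext
      intro v
      obtain ⟨x, rfl⟩ := hsurj v
      rw [hρ]
      show _ = π x
      symm
      rw [hπ]
      have h4 := hPc (x⁻¹ : G) (F.inv_mem x.2) g hg
      have h5 : (x : G)⁻¹ * (g * x * g⁻¹) = (x⁻¹ : G) * g * ((x : G)⁻¹)⁻¹ * g⁻¹ := by group
      show (x : G)⁻¹ * (g * x * g⁻¹) ∈ Ph
      rw [h5]
      exact h4
  · exact Nat.card_le_card_of_surjective π hsurj
  · intro g hg hgp
    let f : (F ⊓ Subgroup.centralizer {g} : Subgroup G) → {v : V // ρ g v = v} := fun y =>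
      ⟨π ⟨y, y.2.1⟩, by
        rw [hρ]
        congr 1
        apply Subtype.ext
        show g * y * g⁻¹ = y
        have h4 := y.2.2
        have h5 : (y : G) * g = g * y := (Subgroup.mem_centralizer_singleton_iff.1 h4)
        rw [← h5]
        group⟩
    apply Nat.card_le_card_of_surjective f
    rintro ⟨v, hv⟩
    obtain ⟨x, rfl⟩ := hsurj v
    obtain ⟨n, hn, hn2⟩ := hfix g hg hgp x hv
    refine ⟨⟨(x : G) * n, F.mul_mem x.2 (hle hn), ?_⟩, ?_⟩
    · show (x : G) * n ∈ Subgroup.centralizer {g}
      rw [Subgroup.mem_centralizer_singleton_iff]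
      have h7 := mul_inv_eq_iff_eq_mul.1 hn2
      exact h7.symm
    · apply Subtype.ext
      show π ⟨(x : G) * n, _⟩ = π x
      symm
      rw [hπ]
      show (x : G)⁻¹ * ((x : G) * n) ∈ Ph
      rw [inv_mul_cancel_left]
      exact hn

end Pool.Agent.Helper33.CR
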